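import Pool.Agent.H798.BV.Stm7

/-!
# MP_f0bc87_an: pointwise Gaussian approximation of a product (L2a; helper746 for helper798)
-/

set_option autoImplicit false

namespace Pool.Agent.H746.BV

open Pool.Agent.H798.BV

theorem log_bound {x : ℂ} (hx : ‖x‖ ≤ 1 / 4) :
    ‖Complex.log (1 - x) + x + x ^ 2 / 2‖ ≤ ‖x‖ ^ 3 / 2 := by
  have h := Complex.norm_log_sub_logTaylor_le 2 (z := -x) (by rw [norm_neg]; linarith)
  have e : Complex.logTaylor (2 + 1) (-x) = -x - x ^ 2 / 2 := by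
    rw [Complex.logTaylor_succ, Complex.logTaylor_succ, Complex.logTaylor_succ,
      Complex.logTaylor_zero]
    simp
    ring
  rw [e, norm_neg] at h
  have e2 : Complex.log (1 + -x) - (-x - x ^ 2 / 2) = Complex.log (1 - x) + x + x ^ 2 / 2 := by
    rw [← sub_eq_add_neg]; ring
  rw [e2] at h
  refine h.trans ?_
  have h0 : 0 ≤ ‖x‖ ^ 3 := by positivity
  have h1 : (1 - ‖x‖)⁻¹ ≤ 4 / 3 := by
    rw [inv_le_comm₀ (by linarith) (by norm_num)]
    linarith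
  have h2 : ‖x‖ ^ (2 + 1) * (1 - ‖x‖)⁻¹ ≤ ‖x‖ ^ 3 * (4 / 3) :=
    mul_le_mul_of_nonneg_left h1 h0
  have h3 : ((2 : ℕ) : ℝ) + 1 = 3 := by norm_num
  rw [h3]
  linarith

theorem log_bound2 {x : ℂ} (hx : ‖x‖ ≤ 1 / 4) : ‖Complex.log (1 - x) + x‖ ≤ ‖x‖ ^ 2 := by
  have h := log_bound hx
  have e : Complex.log (1 - x) + x = (Complex.log (1 - x) + x + x ^ 2 / 2) - x ^ 2 / 2 := by ring
  rw [e]
  refine (norm_sub_le _ _).trans ?_
  have h1 : ‖x ^ 2 / 2‖ = ‖x‖ ^ 2 / 2 := by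
    rw [norm_div, norm_pow]
    norm_num
  rw [h1]
  have h2 : ‖x‖ ^ 3 ≤ 1 / 4 * ‖x‖ ^ 2 := by
    have : ‖x‖ ^ 3 = ‖x‖ * ‖x‖ ^ 2 := by ring
    rw [this]
    exact mul_le_mul_of_nonneg_right hx (by positivity)
  nlinarith [sq_nonneg ‖x‖]

theorem t_L2a : S_L2a := by
  intro X η L hX hη hL
  obtain ⟨η', hη0, hη1, hη2⟩ : ∃ η' : ℝ, 0 < η' ∧ η' ≤ 1 ∧ 2 * η' ≤ η :=
    ⟨min 1 (η / 2), lt_min one_pos (by linarith), min_le_left _ _, by
      have := min_le_right 1 (η / 2); linarith⟩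
  obtain ⟨ε, hε⟩ : ∃ ε, ε = min (1 / (16 * X ^ 2)) (η' / (3 * X ^ 2)) := ⟨_, rfl⟩
  have hX2 : 0 < X ^ 2 := by positivity
  have hε0 : 0 < ε := by
    rw [hε]
    exact lt_min (by positivity) (by positivity)
  have hε1 : ε * X ^ 2 ≤ 1 / 16 := by
    have h1 : ε ≤ 1 / (16 * X ^ 2) := by rw [hε]; exact min_le_left _ _
    rw [le_div_iff₀ (by positivity)] at h1
    linarith
  have hε2 : 3 * (ε * X ^ 2) ≤ η' := by
    have h1 : ε ≤ η' / (3 * X ^ 2) := by rw [hε]; exact min_le_right _ _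
    rw [le_div_iff₀ (by positivity)] at h1
    linarith
  refine ⟨ε, max 1 (max (16 * X ^ 2 * L ^ 2) ((X ^ 3 * L / η') ^ 2)), hε0, le_max_left _ _, ?_⟩
  intro m l hM hsum hre hbig hy x hx0 hxX
  have hM1 : (1 : ℝ) ≤ m := (le_max_left _ _).trans hM
  have hM2 : 16 * X ^ 2 * L ^ 2 ≤ m := ((le_max_left _ _).trans (le_max_right _ _)).trans hM
  have hM3 : (X ^ 3 * L / η') ^ 2 ≤ m := ((le_max_right _ _).trans (le_max_right _ _)).trans hM
  have hm0 : (0 : ℝ) < m := by linarith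
  obtain ⟨q, hq⟩ : ∃ q, q = Real.sqrt m := ⟨_, rfl⟩
  have hq0 : 0 < q := by rw [hq]; exact Real.sqrt_pos.2 hm0
  have hqq : q * q = m := by rw [hq]; exact Real.mul_self_sqrt hm0.le
  have hq1 : 4 * X * L ≤ q := by
    rw [hq]
    refine Real.le_sqrt_of_sq_le ?_
    nlinarith
  have hq2 : X ^ 3 * L / η' ≤ q := by
    rw [hq]
    exact Real.le_sqrt_of_sq_le hM3
  rw [← hq]
  obtain ⟨u, hu⟩ : ∃ u, u = x / q := ⟨_, rfl⟩
  rw [← hu]
  have hu0 : 0 ≤ u := by rw [hu]; positivity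
  have huq : u * q = x := by rw [hu]; field_simp
  have huX : u * q ≤ X := by rw [huq]; exact hxX
  have hum : u ^ 2 * m = x ^ 2 := by
    rw [← hqq, ← huq]
    ring
  have hx2 : x ^ 2 ≤ X ^ 2 := pow_le_pow_left₀ hx0 hxX 2
  have huL : u * L ≤ 1 / 4 := by
    have h1 : u * (4 * X * L) ≤ X := (mul_le_mul_of_nonneg_left hq1 hu0).trans huX
    have h2 : X * (4 * (u * L)) ≤ X * 1 := by linarith
    have h3 := le_of_mul_le_mul_left h2 hX
    linarith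
  have hnorm : ∀ k, ‖(u : ℂ) * l k‖ = u * ‖l k‖ := by
    intro k
    rw [norm_mul, Complex.norm_real, Real.norm_of_nonneg hu0]
  have hsm : ∀ k, ¬ L < ‖l k‖ → u * ‖l k‖ ≤ u * L := fun k hk =>
    mul_le_mul_of_nonneg_left (not_lt.1 hk) hu0
  have hbg : ∀ k, L < ‖l k‖ → u * ‖l k‖ ≤ 1 / 4 := by
    intro k hk
    have h1 : ‖l k‖ ^ 2 ≤ ε * m := by
      refine le_trans ?_ hbig
      exact Finset.single_le_sum (f := fun k => ‖l k‖ ^ 2) (fun i _ => by positivity)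
        (Finset.mem_filter.2 ⟨Finset.mem_univ k, hk⟩)
    have h2 : (u * ‖l k‖) ^ 2 ≤ (1 / 4) ^ 2 := by
      have h3 : (u * ‖l k‖) ^ 2 = u ^ 2 * ‖l k‖ ^ 2 := by ring
      rw [h3]
      have h4 : u ^ 2 * ‖l k‖ ^ 2 ≤ u ^ 2 * (ε * m) := mul_le_mul_of_nonneg_left h1 (by positivity)
      have h5 : u ^ 2 * (ε * m) = ε * x ^ 2 := by rw [← hum]; ring
      have h6 : ε * x ^ 2 ≤ ε * X ^ 2 := mul_le_mul_of_nonneg_left hx2 hε0.le
      linarith
    exact (pow_le_pow_iff_left₀ (by positivity) (by norm_num) two_ne_zero).1 h2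
  have hall : ∀ k, ‖(u : ℂ) * l k‖ ≤ 1 / 4 := by
    intro k
    rw [hnorm]
    by_cases hk : L < ‖l k‖
    · exact hbg k hk
    · exact (hsm k hk).trans huL
  have hu2 : u ^ 2 * ∑ k, ‖l k‖ ^ 2 ≤ x ^ 2 := by
    rw [← hum]
    exact mul_le_mul_of_nonneg_left hsum (by positivity)
  -- the error terms
  obtain ⟨E1, hE1⟩ : ∃ E1, E1 = ∑ k ∈ Finset.univ.filter (fun k => ¬ L < ‖l k‖),
    (Complex.log (1 - (u : ℂ) * l k) + (u : ℂ) * l k + ((u : ℂ) * l k) ^ 2 / 2) := ⟨_, rfl⟩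
  obtain ⟨E2, hE2⟩ : ∃ E2, E2 = ∑ k ∈ Finset.univ.filter (fun k => L < ‖l k‖),
    (Complex.log (1 - (u : ℂ) * l k) + (u : ℂ) * l k) := ⟨_, rfl⟩
  have hE1b : ‖E1‖ ≤ u * L * x ^ 2 / 2 := by
    rw [hE1]
    refine (norm_sum_le _ _).trans ?_
    have h1 : ∀ k ∈ Finset.univ.filter (fun k => ¬ L < ‖l k‖),
        ‖Complex.log (1 - (u : ℂ) * l k) + (u : ℂ) * l k + ((u : ℂ) * l k) ^ 2 / 2‖ ≤
          u * L * u ^ 2 / 2 * ‖l k‖ ^ 2 := by
      intro k hk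
      refine (log_bound (hall k)).trans ?_
      rw [hnorm]
      have h2 := hsm k (Finset.mem_filter.1 hk).2
      have h3 : (u * ‖l k‖) ^ 3 = (u * ‖l k‖) * (u ^ 2 * ‖l k‖ ^ 2) := by ring
      rw [h3]
      have h4 : (u * ‖l k‖) * (u ^ 2 * ‖l k‖ ^ 2) ≤ (u * L) * (u ^ 2 * ‖l k‖ ^ 2) :=
        mul_le_mul_of_nonneg_right h2 (by positivity)
      linarith
    refine (Finset.sum_le_sum h1).trans ?_
    rw [← Finset.mul_sum]
    have h5 : ∑ k ∈ Finset.univ.filter (fun k => ¬ L < ‖l k‖), ‖l k‖ ^ 2 ≤ ∑ k, ‖l k‖ ^ 2 :=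
      Finset.sum_le_sum_of_subset_of_nonneg (Finset.filter_subset _ _)
        (fun i _ _ => by positivity)
    have h6 : u * L * u ^ 2 / 2 * ∑ k ∈ Finset.univ.filter (fun k => ¬ L < ‖l k‖), ‖l k‖ ^ 2 ≤
        u * L * u ^ 2 / 2 * ∑ k, ‖l k‖ ^ 2 := mul_le_mul_of_nonneg_left h5 (by positivity)
    have h7 : u * L * u ^ 2 / 2 * ∑ k, ‖l k‖ ^ 2 = u * L / 2 * (u ^ 2 * ∑ k, ‖l k‖ ^ 2) := by ring
    have h8 : u * L / 2 * (u ^ 2 * ∑ k, ‖l k‖ ^ 2) ≤ u * L / 2 * x ^ 2 :=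
      mul_le_mul_of_nonneg_left hu2 (by positivity)
    linarith
  have hE2b : ‖E2‖ ≤ ε * x ^ 2 := by
    rw [hE2]
    refine (norm_sum_le _ _).trans ?_
    have h1 : ∀ k ∈ Finset.univ.filter (fun k => L < ‖l k‖),
        ‖Complex.log (1 - (u : ℂ) * l k) + (u : ℂ) * l k‖ ≤ u ^ 2 * ‖l k‖ ^ 2 := by
      intro k hk
      refine (log_bound2 (hall k)).trans ?_
      rw [hnorm, mul_pow]
    refine (Finset.sum_le_sum h1).trans ?_
    rw [← Finset.mul_sum]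
    refine (mul_le_mul_of_nonneg_left hbig (by positivity)).trans ?_
    rw [← hum]
    exact le_of_eq (by ring)
  -- the exponent
  obtain ⟨T, hT⟩ : ∃ T, T = -((x : ℂ) * ((q : ℂ) * ((∑ k, l k) / m))) - (x : ℂ) ^ 2 / 2 := ⟨_, rfl⟩
  obtain ⟨D, hD⟩ : ∃ D, D = -((x : ℂ) ^ 2 / 2 * (yR L l - 1)) + E1 + E2 := ⟨_, rfl⟩
  have hmC : (m : ℂ) ≠ 0 := by
    have : (m : ℝ) ≠ 0 := hm0.ne'
    exact_mod_cast this
  have hqC : (q : ℂ) * q = m := by exact_mod_cast hqq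
  have hq0C : (q : ℂ) ≠ 0 := by exact_mod_cast hq0.ne'
  have huC : (u : ℂ) * q = x := by exact_mod_cast huq
  have hlog : ∑ k, Complex.log (1 - (u : ℂ) * l k) = T + D := by
    have h1 := Finset.sum_filter_add_sum_filter_not Finset.univ (fun k => L < ‖l k‖)
      (fun k => Complex.log (1 - (u : ℂ) * l k) + (u : ℂ) * l k)
    have h2 : ∑ k, (Complex.log (1 - (u : ℂ) * l k) + (u : ℂ) * l k) =
        ∑ k, Complex.log (1 - (u : ℂ) * l k) + (u : ℂ) * ∑ k, l k := by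
      rw [Finset.sum_add_distrib, Finset.mul_sum]
    have h3 : E1 = ∑ k ∈ Finset.univ.filter (fun k => ¬ L < ‖l k‖),
        (Complex.log (1 - (u : ℂ) * l k) + (u : ℂ) * l k) +
        (u : ℂ) ^ 2 / 2 * ∑ k ∈ Finset.univ.filter (fun k => ¬ L < ‖l k‖), l k ^ 2 := by
      rw [hE1, Finset.sum_add_distrib, Finset.mul_sum]
      congr 1
      exact Finset.sum_congr rfl fun k _ => by ring
    have h4 : (u : ℂ) ^ 2 / 2 * ∑ k ∈ Finset.univ.filter (fun k => ¬ L < ‖l k‖), l k ^ 2 =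
        (x : ℂ) ^ 2 / 2 * yR L l := by
      unfold yR
      rw [← huC]
      have : (m : ℂ) = q * q := hqC.symm
      rw [this]
      field_simp
    have h5 : (u : ℂ) * ∑ k, l k = (x : ℂ) * ((q : ℂ) * ((∑ k, l k) / m)) := by
      rw [← huC]
      have : (m : ℂ) = q * q := hqC.symm
      rw [this]
      field_simp
    rw [h2, ← hE2] at h1
    have h6 : ∑ k, Complex.log (1 - (u : ℂ) * l k) = E2 + (E1 - (x : ℂ) ^ 2 / 2 * yR L l) -
        (x : ℂ) * ((q : ℂ) * ((∑ k, l k) / m)) := by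
      rw [← h4, ← h5, h3]
      linear_combination -h1
    rw [h6, hT, hD]
    ring
  have hprod : ∏ k, (1 - (u : ℂ) * l k) = Complex.exp (T + D) := by
    rw [← hlog, Complex.exp_sum]
    refine Finset.prod_congr rfl fun k _ => ?_
    rw [Complex.exp_log]
    intro h0
    have h1 : (u : ℂ) * l k = 1 := (sub_eq_zero.1 h0).symm
    have h2 := hall k
    rw [h1, norm_one] at h2
    norm_num at h2
  have hDb : ‖D‖ ≤ η' := by
    have h1 : ‖-((x : ℂ) ^ 2 / 2 * (yR L l - 1))‖ ≤ x ^ 2 / 2 * ε := by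
      rw [norm_neg, norm_mul, norm_div, norm_pow, Complex.norm_real, Real.norm_of_nonneg hx0]
      have h2 : ‖(2 : ℂ)‖ = 2 := by norm_num
      rw [h2]
      exact mul_le_mul_of_nonneg_left hy (by positivity)
    have h2 : ‖D‖ ≤ x ^ 2 / 2 * ε + u * L * x ^ 2 / 2 + ε * x ^ 2 := by
      rw [hD]
      refine (norm_add_le _ _).trans (add_le_add ((norm_add_le _ _).trans (add_le_add h1 hE1b)) hE2b)
    have h3 : ε * x ^ 2 ≤ ε * X ^ 2 := mul_le_mul_of_nonneg_left hx2 hε0.le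
    have h4 : u * L * x ^ 2 ≤ η' := by
      have h5 : X ^ 3 * L ≤ q * η' := by
        rw [div_le_iff₀ hη0] at hq2
        exact hq2
      have h6 : u * L * x ^ 2 * q ≤ η' * q := by
        have h7 : u * L * x ^ 2 * q = x ^ 3 * L := by
          have : u * L * x ^ 2 * q = (u * q) * L * x ^ 2 := by ring
          rw [this, huq]
          ring
        rw [h7]
        have h8 : x ^ 3 ≤ X ^ 3 := pow_le_pow_left₀ hx0 hxX 3
        have h9 : x ^ 3 * L ≤ X ^ 3 * L := mul_le_mul_of_nonneg_right h8 (by linarith)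
        linarith
      exact le_of_mul_le_mul_right h6 hq0
    linarith
  rw [hprod, ← hT, Complex.exp_add]
  have h1 : Complex.exp T * Complex.exp D - Complex.exp T =
      Complex.exp T * (Complex.exp D - 1) := by ring
  rw [h1, norm_mul]
  have h2 : ‖Complex.exp T‖ ≤ 1 := by
    rw [Complex.norm_exp, hT]
    have h3 : (-((x : ℂ) * ((q : ℂ) * ((∑ k, l k) / m))) - (x : ℂ) ^ 2 / 2).re =
        -(x * (q * ((∑ k, l k) / m : ℂ).re)) - x ^ 2 / 2 := by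
      rw [Complex.sub_re, Complex.neg_re, Complex.re_ofReal_mul, Complex.re_ofReal_mul]
      congr 1
      have : (x : ℂ) ^ 2 / 2 = ((x ^ 2 / 2 : ℝ) : ℂ) := by push_cast; ring
      rw [this, Complex.ofReal_re]
    rw [h3, Real.exp_le_one_iff]
    have h4 : 0 ≤ x * (q * ((∑ k, l k) / m : ℂ).re) := by positivity
    have h5 : 0 ≤ x ^ 2 := sq_nonneg x
    linarith
  have h3 : ‖Complex.exp D - 1‖ ≤ 2 * ‖D‖ := Complex.norm_exp_sub_one_le (by linarith)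
  calc ‖Complex.exp T‖ * ‖Complex.exp D - 1‖ ≤ 1 * (2 * ‖D‖) :=
        mul_le_mul h2 h3 (norm_nonneg _) zero_le_one
    _ ≤ η := by linarith

end Pool.Agent.H746.BV
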